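import Mathlib

set_option autoImplicit false

namespace Pool.Agent.Results.MP_9bce75_nt.Counter492

theorem result :
    ¬ (∀ n : ℕ, 0 < n →
        (((n.properDivisors.powerset.filter (fun S => S.Nonempty)).image
          (fun S => ∑ d ∈ S, d)).card = n) → Nat.Perfect n ∧ Even n) := by
  intro H
  have hd : (492 : ℕ).properDivisors = {1, 2, 3, 4, 6, 12, 41, 82, 123, 164, 246} := by
    decide +kernel
  have key : ∀ l : List ℕ, l.Nodup → ∀ x : ℕ,
      (∃ S ∈ l.toFinset.powerset, ∑ d ∈ S, d = x) ↔
        (l.foldr (fun d B => B ||| (B <<< d)) 1).testBit x = true := by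
    intro l
    induction l with
    | nil =>
      intro _ x
      rw [List.foldr_nil, Nat.testBit_one_eq_true_iff_self_eq_zero]
      simp only [List.toFinset_nil, Finset.powerset_empty, Finset.mem_singleton, exists_eq_left,
        Finset.sum_empty]
      exact eq_comm
    | cons a l ih =>
      intro hn x
      rw [List.nodup_cons] at hn
      have ha : a ∉ l.toFinset := by simpa using hn.1
      rw [List.toFinset_cons, Finset.powerset_insert, List.foldr_cons, Nat.testBit_or,
        Nat.testBit_shiftLeft, Bool.or_eq_true, Bool.and_eq_true, ← ih hn.2, ← ih hn.2]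
      simp only [Finset.mem_union, Finset.mem_image, decide_eq_true_eq]
      constructor
      · rintro ⟨S, hS | ⟨T, hT, rfl⟩, rfl⟩
        · exact Or.inl ⟨S, hS, rfl⟩
        · have : a ∉ T := fun h => ha (Finset.mem_powerset.mp hT h)
          rw [Finset.sum_insert this]
          exact Or.inr ⟨by omega, T, hT, by omega⟩
      · rintro (⟨S, hS, rfl⟩ | ⟨h, T, hT, h2⟩)
        · exact ⟨S, Or.inl hS, rfl⟩
        · have : a ∉ T := fun h => ha (Finset.mem_powerset.mp hT h)
          exact ⟨insert a T, Or.inr ⟨T, hT, rfl⟩, by rw [Finset.sum_insert this]; omega⟩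
  have hl : (492 : ℕ).properDivisors = [1, 2, 3, 4, 6, 12, 41, 82, 123, 164, 246].toFinset := by
    decide +kernel
  have himg : ((492 : ℕ).properDivisors.powerset.filter (fun S => S.Nonempty)).image
      (fun S => ∑ d ∈ S, d) = (Finset.range 700).filter (fun x => 0 < x ∧
        ([1, 2, 3, 4, 6, 12, 41, 82, 123, 164, 246].foldr
          (fun d B => B ||| (B <<< d)) 1).testBit x = true) := by
    ext x
    rw [Finset.mem_image, Finset.mem_filter, ← key _ (by decide), ← hl]
    constructor
    · rintro ⟨S, hS, rfl⟩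
      rw [Finset.mem_filter, Finset.mem_powerset] at hS
      refine ⟨?_, ?_, S, Finset.mem_powerset.mpr hS.1, rfl⟩
      · have h1 : ∑ d ∈ S, d ≤ ∑ d ∈ (492 : ℕ).properDivisors, d :=
          Finset.sum_le_sum_of_subset hS.1
        have h2 : ∑ d ∈ (492 : ℕ).properDivisors, d = 684 := by rw [hd]; decide +kernel
        rw [Finset.mem_range]; omega
      · exact Finset.sum_pos (fun i hi => Nat.pos_of_mem_properDivisors (hS.1 hi)) hS.2
    · rintro ⟨-, h0, S, hS, rfl⟩
      refine ⟨S, Finset.mem_filter.mpr ⟨hS, ?_⟩, rfl⟩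
      rcases S.eq_empty_or_nonempty with rfl | h
      · simp at h0
      · exact h
  have h := H 492 (by norm_num) (by rw [himg]; decide +kernel)
  have h2 := h.1.1
  rw [hd] at h2
  revert h2
  decide +kernel

end Pool.Agent.Results.MP_9bce75_nt.Counter492
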